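import Mathlib

set_option autoImplicit false

namespace Pool.Agent.Results.MP_ba77d1_co.Holds

open Finset Matrix Filter

/-- `R n k`: real `n × n` matrices with entries in `{0,1}` and exactly `k` ones in every row. -/
def R (n k : ℕ) : Set (Matrix (Fin n) (Fin n) ℝ) :=
  {A | (∀ i j, A i j = 0 ∨ A i j = 1) ∧ ∀ i, (univ.filter fun j => A i j = 1).card = k}

/-- `M n k`: the maximum determinant over `R n k`. -/
noncomputable def M (n k : ℕ) : ℝ := sSup (Matrix.det '' R n k)

lemma hadamard {n : ℕ} (B : Matrix (Fin n) (Fin n) ℝ) : B.det ^ 2 ≤ ∏ i, ∑ j, B i j ^ 2 := by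
  have : Fact (Module.finrank ℝ (EuclideanSpace ℝ (Fin n)) = n) := ⟨by simp⟩
  let b := EuclideanSpace.basisFun (Fin n) ℝ
  let v : Fin n → EuclideanSpace ℝ (Fin n) := fun i => WithLp.toLp 2 (B i)
  have h1 := (b.toBasis.orientation).abs_volumeForm_apply_le v
  rw [(b.toBasis.orientation).volumeForm_robust' b v, Module.Basis.det_apply] at h1
  have h2 : b.toBasis.toMatrix v = Bᵀ := by
    ext i j; simp [Module.Basis.toMatrix_apply, b, v]
  rw [h2, det_transpose] at h1
  calc B.det ^ 2 = |B.det| ^ 2 := (sq_abs _).symm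
    _ ≤ (∏ i, ‖v i‖) ^ 2 := by gcongr
    _ = ∏ i, ∑ j, B i j ^ 2 := by
      rw [← prod_pow]
      refine prod_congr rfl fun i _ => ?_
      rw [EuclideanSpace.norm_sq_eq]; simp [v]

lemma bound {n k : ℕ} (hk : 1 ≤ k) (A : Matrix (Fin n) (Fin n) ℝ) (hA : A ∈ R n k) :
    A.det ^ (2 * k) ≤ ((k : ℝ) * (k - 1 / k) ^ (k - 1)) ^ n := by
  classical
  obtain ⟨h01, hrow⟩ := hA
  have hk' : (1 : ℝ) ≤ k := by exact_mod_cast hk
  have hsq : ∀ i, ∑ j, A i j ^ 2 = k := by
    intro i
    rw [← hrow i, card_filter]; push_cast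
    exact sum_congr rfl fun j _ => by rcases h01 i j with h | h <;> simp [h]
  let P : Fin n → Prop := fun i => ∃ j, j < i ∧ ∃ c, A i c = 1 ∧ A j c = 1
  have hpar : ∀ i, ∃ j, P i → j < i ∧ ∃ c, A i c = 1 ∧ A j c = 1 := by
    intro i
    by_cases h : P i
    · obtain ⟨j, hj⟩ := h; exact ⟨j, fun _ => hj⟩
    · exact ⟨i, fun h' => (h h').elim⟩
  choose par hpar using hpar
  let L : Matrix (Fin n) (Fin n) ℝ := Matrix.of fun i j =>
    (if j = i then 1 else 0) - (if j = par i then (if P i then 1 / (k : ℝ) else 0) else 0)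
  have hL : L.det = 1 := by
    rw [det_of_isLowerTriangular]
    · refine prod_eq_one fun i _ => ?_
      by_cases h : P i
      · have := (hpar i h).1
        simp [L, this.ne']
      · simp [L, h]
    · intro i j hij
      have hij' : i < j := hij
      by_cases h : P i
      · have := (hpar i h).1
        simp [L, hij'.ne', (this.trans hij').ne']
      · simp [L, h, hij'.ne']
  have hB : ∀ i c, (L * A) i c = A i c - (if P i then 1 / (k : ℝ) else 0) * A (par i) c := by
    intro i c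
    simp [L, Matrix.mul_apply, sub_mul, sum_sub_distrib, ite_mul]
  have ha0 : (0 : ℝ) ≤ k - 1 / k := by
    have : 1 / (k : ℝ) ≤ 1 := by rw [div_le_one (by linarith)]; exact hk'
    linarith
  have ha1 : (k : ℝ) - 1 / k ≤ k := by
    have : 0 ≤ 1 / (k : ℝ) := by positivity
    linarith
  have hrowB : ∀ i, ∑ c, (L * A) i c ^ 2 ≤ if P i then (k : ℝ) - 1 / k else k := by
    intro i
    by_cases h : P i
    · obtain ⟨-, c0, h1, h2⟩ := hpar i h
      have hip : 1 ≤ ∑ c, A i c * A (par i) c := by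
        have := single_le_sum (f := fun c => A i c * A (par i) c) (s := univ)
          (fun c _ => by rcases h01 i c with h | h <;> rcases h01 (par i) c with h' | h' <;>
            simp [h, h']) (mem_univ c0)
        simpa [h1, h2] using this
      have : ∑ c, (L * A) i c ^ 2 = ∑ c, A i c ^ 2 - 2 / k * ∑ c, A i c * A (par i) c
          + (1 / k) ^ 2 * ∑ c, A (par i) c ^ 2 := by
        rw [mul_sum, mul_sum, ← sum_sub_distrib, ← sum_add_distrib]
        refine sum_congr rfl fun c _ => ?_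
        rw [hB, if_pos h]; ring
      rw [this, hsq, hsq, if_pos h]
      have e : (1 / (k : ℝ)) ^ 2 * k = 1 / k := by field_simp
      have e2 : 2 / (k : ℝ) * 1 ≤ 2 / k * ∑ c, A i c * A (par i) c := by gcongr
      have e3 : 2 / (k : ℝ) * 1 = 1 / k + 1 / k := by ring
      linarith
    · rw [if_neg h, ← hsq i]
      exact le_of_eq (sum_congr rfl fun c _ => by rw [hB, if_neg h]; ring)
  have hdet : A.det ^ 2 ≤ ((k : ℝ) - 1 / k) ^ (univ.filter P).card *
      (k : ℝ) ^ (univ.filter fun i => ¬ P i).card := by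
    calc A.det ^ 2 = (L * A).det ^ 2 := by rw [det_mul, hL, one_mul]
      _ ≤ ∏ i, ∑ c, (L * A) i c ^ 2 := hadamard _
      _ ≤ ∏ i, if P i then (k : ℝ) - 1 / k else k :=
          prod_le_prod (fun i _ => by positivity) fun i _ => hrowB i
      _ = _ := by rw [prod_ite, prod_const, prod_const]
  have hc : (univ.filter fun i => ¬ P i).card * k ≤ n := by
    have h1 : ((univ.filter fun i => ¬ P i).biUnion fun i => univ.filter fun j => A i j = 1).card
        = ∑ i ∈ univ.filter fun i => ¬ P i, (univ.filter fun j => A i j = 1).card := by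
      refine card_biUnion fun i hi j hj hij => ?_
      have hi' : ¬ P i := by simpa using hi
      have hj' : ¬ P j := by simpa using hj
      rw [Function.onFun, disjoint_filter]
      intro c _ h1 h2
      rcases lt_or_gt_of_ne hij with h | h
      · exact hj' ⟨i, h, c, h2, h1⟩
      · exact hi' ⟨j, h, c, h1, h2⟩
    have h2 := card_le_univ
      ((univ.filter fun i => ¬ P i).biUnion fun i => univ.filter fun j => A i j = 1)
    rw [h1, sum_congr rfl fun i _ => hrow i] at h2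
    simpa using h2
  have hsum := card_filter_add_card_filter_not (s := (univ : Finset (Fin n))) P
  rw [card_univ, Fintype.card_fin] at hsum
  set a := (univ.filter P).card
  set c := (univ.filter fun i => ¬ P i).card
  obtain ⟨e, he⟩ := Nat.exists_eq_add_of_le hc
  obtain ⟨k', rfl⟩ := Nat.exists_eq_add_of_le' hk
  have hak : a * (k' + 1) = k' * n + e := by
    have h1 : (a + c) * (k' + 1) = n * (k' + 1) := by rw [hsum]
    nlinarith
  set K : ℝ := ((k' + 1 : ℕ) : ℝ)
  calc A.det ^ (2 * (k' + 1)) = (A.det ^ 2) ^ (k' + 1) := by rw [pow_mul]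
    _ ≤ ((K - 1 / K) ^ a * K ^ c) ^ (k' + 1) := by gcongr
    _ = (K - 1 / K) ^ (k' * n) * (K - 1 / K) ^ e * K ^ (c * (k' + 1)) := by
        rw [mul_pow, ← pow_mul, ← pow_mul, hak, pow_add]
    _ ≤ (K - 1 / K) ^ (k' * n) * K ^ e * K ^ (c * (k' + 1)) := by gcongr
    _ = _ := by
        rw [Nat.add_sub_cancel, mul_pow, ← pow_mul, mul_assoc, ← pow_add, add_comm e, ← he, mul_comm]

lemma bound3 {n : ℕ} (A : Matrix (Fin n) (Fin n) ℝ) (hA : A ∈ R n 3) :
    A.det ≤ (167 / 100 : ℝ) ^ n := by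
  have h := bound (by norm_num) A hA
  refine le_trans (le_abs_self _) (pow_le_pow_left₀ (abs_nonneg _) (le_refl _) 1 |>.trans ?_
    |> fun h => by simpa using h)
  rw [pow_one]
  refine le_of_pow_le_pow_left₀ (n := 6) (by norm_num) (by positivity) ?_
  rw [show 6 = 2 * 3 from rfl, pow_mul, sq_abs, ← pow_mul]
  refine h.trans ?_
  rw [← pow_mul, mul_comm n, pow_mul]
  gcongr
  norm_num

lemma zero_mem {n : ℕ} (hn : 3 ≤ n) : (0 : ℝ) ∈ Matrix.det '' R n 3 := by
  refine ⟨Matrix.of fun _ j => if j.val < 3 then 1 else 0, ⟨fun i j => ?_, fun i => ?_⟩, ?_⟩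
  · by_cases h : j.val < 3 <;> simp [h]
  · have : (univ.filter fun j : Fin n => (Matrix.of fun (_ : Fin n) (j : Fin n) =>
        if j.val < 3 then (1 : ℝ) else 0) i j = 1) = univ.filter fun j : Fin n => j.val < 3 := by
      ext j; simp
    rw [this, Fin.card_filter_val_lt]; omega
  · exact det_zero_of_row_eq (i := ⟨0, by omega⟩) (j := ⟨1, by omega⟩) (by simp) rfl

theorem result :
    (∀ n k : ℕ, 1 ≤ k → ∀ A ∈ R n k, A.det ^ (2 * k) ≤ ((k : ℝ) * (k - 1 / k) ^ (k - 1)) ^ n) ∧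
    (∀ n : ℕ, 3 ≤ n → 0 ≤ M n 3 ∧ M n 3 ^ ((1 : ℝ) / n) ≤ 167 / 100) ∧
    limsup (fun n : ℕ => M n 3 ^ ((1 : ℝ) / n)) atTop <
      (40 / 11 : ℝ) ^ ((11 : ℝ) / 36) * (2 : ℝ) ^ ((7 : ℝ) / 36) := by
  have h2 : ∀ n : ℕ, 3 ≤ n → 0 ≤ M n 3 ∧ M n 3 ^ ((1 : ℝ) / n) ≤ 167 / 100 := by
    intro n hn
    have hb : ∀ x ∈ Matrix.det '' R n 3, x ≤ (167 / 100 : ℝ) ^ n := by
      rintro x ⟨A, hA, rfl⟩; exact bound3 A hA
    have h0 : 0 ≤ M n 3 := le_csSup ⟨_, hb⟩ (zero_mem hn)
    refine ⟨h0, ?_⟩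
    have h1 : M n 3 ≤ (167 / 100 : ℝ) ^ n := csSup_le ⟨_, zero_mem hn⟩ hb
    calc M n 3 ^ ((1 : ℝ) / n) ≤ ((167 / 100 : ℝ) ^ n) ^ ((1 : ℝ) / n) := by gcongr
      _ = _ := by rw [one_div, Real.pow_rpow_inv_natCast (by norm_num) (by omega)]
  refine ⟨fun n k hk A hA => bound hk A hA, h2, lt_of_le_of_lt (b := 167 / 100) ?_ ?_⟩
  · refine limsup_le_of_le (isCoboundedUnder_le_of_eventually_le _ (x := 0) ?_) ?_
    · filter_upwards [eventually_ge_atTop 3] with n hn using Real.rpow_nonneg (h2 n hn).1 _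
    · filter_upwards [eventually_ge_atTop 3] with n hn using (h2 n hn).2
  · refine lt_of_pow_lt_pow_left₀ 36 (by positivity) ?_
    rw [mul_pow, ← Real.rpow_natCast, ← Real.rpow_natCast, ← Real.rpow_natCast,
      ← Real.rpow_mul (by norm_num), ← Real.rpow_mul (by norm_num)]
    norm_num

end Pool.Agent.Results.MP_ba77d1_co.Holds
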